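import Pool.Agent.H461R2.GP.All

/-!
# All even numbers up to (almost) the Jacobsthal function are gaps between reduced residues

`nk k` is the product of the first `k` primes, `IsGap k t` says that `t` is the difference of two
consecutive integers of `[1, nk k)` coprime to `nk k`, `J k` is the largest such gap and `f k` the
least positive even integer which is not such a gap.
-/

set_option autoImplicit false

open Finset

namespace Pool.Agent.Results.MP_f24d98_nt.JacobsthalRange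

open Pool.Agent.H461R2.GP

theorem result : ∃ δ : ℝ, 0 < δ ∧ δ < 1 ∧
    (∃ K : ℕ, ∀ k ≥ K,
      min ((J (k - ⌊(k : ℝ) ^ (1 - δ)⌋₊) : ℝ) - (k : ℝ) ^ (1 - δ)) ((k : ℝ) ^ (1 + δ)) ≤ f k) ∧
    (∃ X : ℕ, ∀ x ≥ X,
      ((((Icc 1 x).filter (fun k => (f k : ℝ) <
        min (J k : ℝ) ((k : ℝ) ^ (1 + δ)) - (k : ℝ) ^ (1 - δ))).card : ℕ) : ℝ) ≤
        (x : ℝ) ^ (1 - δ)) := by
  obtain ⟨δ, h0, h1, h2⟩ := one_alm
  obtain ⟨h3, h4⟩ := h2 δ h0 le_rfl
  exact ⟨δ, h0, by linarith, h3, h4⟩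

end Pool.Agent.Results.MP_f24d98_nt.JacobsthalRange
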